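import Mathlib
import Pool.Agent.AMS.Final

namespace Pool.Agent.Results.MP_16d252_co.LargeHypertrees

open Finset Pool.Agent.HypU

/-- For every `l` there is `N` such that every linear hypertree all of whose edges have at most `l`
vertices and which has at least `N` vertices has a unimodal strong independent set sequence. In
particular (`l = 2`) this holds for all trees and forests with sufficiently many vertices. -/
theorem result (l : ℕ) : ∃ N : ℕ, ∀ (V : Type) [Fintype V] [DecidableEq V] (E : Finset (Finset V)),
    IsHypertree E → IsLinear E → (∀ e ∈ E, e.card ≤ l) → N ≤ Fintype.card V →
      Unimodal (indepCount E) :=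
  Pool.Agent.AMS.final l

end Pool.Agent.Results.MP_16d252_co.LargeHypertrees
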