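import Mathlib
import Pool.Agent.HypU.Final

namespace Pool.Agent.Results.MP_16d252_co.PrivateVertices

open Finset Pool.Agent.HypU

/-- A linear hypertree satisfying the local condition `HCond` (every edge has at least `16` vertices of
degree one, and `12 + 4 ∑ (d_v - 1) ∏ 4 / p_c ≤ p_e`) has a unimodal strong independent set sequence;
the local condition holds as soon as every edge `e` has at least `p ≥ 1` vertices of degree one and
`16 |e| ≤ p ^ 2`. -/
theorem result {V : Type} [Fintype V] [DecidableEq V] (E : Finset (Finset V))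
    (hT : IsHypertree E) (hL : IsLinear E) :
    (HCond E → Unimodal (indepCount E)) ∧
    ∀ p : ℕ, 0 < p → (∀ e ∈ E, p ≤ priv E e) → (∀ e ∈ E, 16 * e.card ≤ p ^ 2) →
      HCond E ∧ Unimodal (indepCount E) :=
  ⟨fun hC => main E hT hL hC, fun p hp0 hp hs =>
    ⟨cor E p hp0 hp hs, main E hT hL (cor E p hp0 hp hs)⟩⟩

end Pool.Agent.Results.MP_16d252_co.PrivateVertices
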